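import Pool.Agent.helper92.ISO.SpecC

/-!
# Project ISO (MP_069684_lc), row iso:TBS
-/

set_option autoImplicit false

open Filter Topology

namespace Pool.Agent.ISO

open Pool.Agent.PB

theorem TBS_proof (hCIR : CIR_stmt) (hIPS : IPS_stmt) : TBS_stmt := by
  classical
  intro n w r s f F A T hf hF
  obtain ⟨-, -, hmono, hnot, hbin, hall, hex⟩ := hCIR
  obtain ⟨hip, -⟩ := hIPS
  -- one bit
  have h1 : ∀ (t : Fin r → Bool) (i : Fin r),
      Size std (fun z : Fin (n + w) → Bool => decide (ip (A i) (fun j => z (Fin.natAdd n j)) = t i)) (20 * (w + 1) ^ 2 + 1) := by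
    intro t i
    rcases ht : t i with _ | _
    · have h := hnot _ _ _ (hip n w (A i))
      have e : (fun z : Fin (n + w) → Bool => !(ip (A i) (fun j => z (Fin.natAdd n j)))) =
          fun z : Fin (n + w) → Bool => decide (ip (A i) (fun j => z (Fin.natAdd n j)) = false) := by
        funext z
        cases ip (A i) (fun j => z (Fin.natAdd n j)) <;> rfl
      rw [e] at h
      exact h
    · have h := hmono _ _ _ _ (hip n w (A i)) (Nat.le_succ _)
      have e : (fun z : Fin (n + w) → Bool => ip (A i) (fun j => z (Fin.natAdd n j))) =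
          fun z : Fin (n + w) → Bool => decide (ip (A i) (fun j => z (Fin.natAdd n j)) = true) := by
        funext z
        cases ip (A i) (fun j => z (Fin.natAdd n j)) <;> rfl
      rw [e] at h
      exact h
  -- one table entry
  have h2 : ∀ t : Fin r → Bool,
      Size std (fun z : Fin (n + w) → Bool => decide (∀ i, ip (A i) (fun j => z (Fin.natAdd n j)) = t i))
        (r * (20 * (w + 1) ^ 2 + 1 + 1) + 1) := by
    intro t
    have h := hall (Fin r) (n + w) (20 * (w + 1) ^ 2 + 1)
      (fun i z => decide (ip (A i) (fun j => z (Fin.natAdd n j)) = t i))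
      (fun z => decide (∀ i, ip (A i) (fun j => z (Fin.natAdd n j)) = t i)) (fun i => h1 t i)
      (fun z => by simp)
    rw [Fintype.card_fin] at h
    exact h
  -- the table
  have h3 : Size std (fun z : Fin (n + w) → Bool => decide (lin A (fun j => z (Fin.natAdd n j)) ∈ T))
      (T.card * (r * (20 * (w + 1) ^ 2 + 1 + 1) + 1 + 1) + 1) := by
    have h := hex {t // t ∈ T} (n + w) (r * (20 * (w + 1) ^ 2 + 1 + 1) + 1)
      (fun t z => decide (∀ i, ip (A i) (fun j => z (Fin.natAdd n j)) = t.1 i))
      (fun z => decide (lin A (fun j => z (Fin.natAdd n j)) ∈ T)) (fun t => h2 t.1)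
      (fun z => by
        simp only [decide_eq_true_eq]
        constructor
        · intro h
          exact ⟨⟨_, h⟩, fun i => rfl⟩
        · rintro ⟨⟨t, ht⟩, h⟩
          have e : lin A (fun j => z (Fin.natAdd n j)) = t := funext h
          rw [e]
          exact ht)
    rw [Fintype.card_coe] at h
    exact h
  have h4 := (hbin _ _ _ _ _ hf h3).1
  have e : (fun z => f z && decide (lin A (fun j => z (Fin.natAdd n j)) ∈ T)) = F := by
    funext z
    have hz := hF (fun i => z (Fin.castAdd w i)) (fun j => z (Fin.natAdd n j))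
    rw [Fin.append_castAdd_natAdd] at hz
    rw [Bool.eq_iff_iff, Bool.and_eq_true, decide_eq_true_eq]
    exact hz.symm
  rw [e] at h4
  refine hmono _ _ _ _ h4 ?_
  have hT : T.card ≤ 2 ^ r := by
    have h := Finset.card_le_univ T
    rwa [Fintype.card_fun, Fintype.card_bool, Fintype.card_fin] at h
  have hW : 1 ≤ (w + 1) ^ 2 := Nat.one_le_pow _ _ (Nat.succ_pos w)
  have h5 : T.card * (r * (20 * (w + 1) ^ 2 + 1 + 1) + 1 + 1) ≤ 2 ^ r * (22 * ((r + 1) * (w + 1) ^ 2)) := by
    refine Nat.mul_le_mul hT ?_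
    nlinarith [Nat.zero_le r, Nat.mul_le_mul_left r hW]
  have h6 : 100 * 2 ^ r * (r + 1) * (w + 1) ^ 2 = 2 ^ r * (100 * ((r + 1) * (w + 1) ^ 2)) := by ring
  rw [h6]
  have h7 : 2 ^ r * (22 * ((r + 1) * (w + 1) ^ 2)) ≤ 2 ^ r * (100 * ((r + 1) * (w + 1) ^ 2)) :=
    Nat.mul_le_mul le_rfl (Nat.mul_le_mul (by norm_num) le_rfl)
  omega

end Pool.Agent.ISO
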